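import Mathlib
import Pool.Agent.Y1.KN.Stm8

/-!
# The number of the classes of odd minimal spaces
-/

set_option linter.unusedSectionVars false
set_option linter.unusedVariables false

namespace Pool.Agent.Y327.KN

open Finset Module Pool.Agent.TH170.MF Pool.Agent.TH170.QC Pool.Agent.TH170.QE Pool.Agent.Y1.KN

section char

variable {G X : Type} [Group G] [Fintype G] [MulAction G X] [Fintype X]

/-- The character of a space of functions. -/
noncomputable def chi (S : Submodule ℚ (X → ℚ)) (γ : G) : ℚ :=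
  LinearMap.trace ℚ (X → ℚ) (proj S ∘ₗ tr γ)

theorem chi_eq_sum [DecidableEq X] (S : Submodule ℚ (X → ℚ)) (γ : G) :
    chi S γ = ∑ x : X, dot X (tr γ (Pi.single x 1)) (proj S (Pi.single x 1)) := by
  rw [chi, LinearMap.trace_eq_matrix_trace ℚ (Pi.basisFun ℚ X), Matrix.trace]
  refine sum_congr rfl fun x _ => ?_
  rw [Matrix.diag_apply, LinearMap.toMatrix_apply, Pi.basisFun_apply, Pi.basisFun_repr,
    LinearMap.comp_apply, ← proj_symm, dot_apply]
  simp [Pi.single_apply]

theorem chi_one (S : Submodule ℚ (X → ℚ)) : chi (G := G) S 1 = finrank ℚ S := by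
  have h : (tr (1 : G) : (X → ℚ) →ₗ[ℚ] (X → ℚ)) = LinearMap.id :=
    LinearMap.ext fun v => tr_one v
  unfold chi
  rw [h, LinearMap.comp_id, trace_proj]

/-- The operator that averages a matrix coefficient. -/
noncomputable def avg (v w : X → ℚ) : (X → ℚ) →ₗ[ℚ] (X → ℚ) :=
  ∑ γ : G, ((dot X).flip v ∘ₗ tr γ).smulRight (tr γ⁻¹ w)

theorem avg_apply (v w u : X → ℚ) :
    avg (G := G) v w u = ∑ γ : G, dot X (tr γ u) v • tr γ⁻¹ w := by
  simp [avg, LinearMap.sum_apply]

theorem avg_tr (v w u : X → ℚ) (δ : G) :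
    avg (G := G) v w (tr δ u) = tr δ (avg (G := G) v w u) := by
  rw [avg_apply, avg_apply, map_sum]
  rw [← Equiv.sum_comp (Equiv.mulLeft δ) (fun γ : G => tr δ (dot X (tr γ u) v • tr γ⁻¹ w))]
  refine sum_congr rfl fun γ _ => ?_
  rw [Equiv.coe_mulLeft, map_smul, tr_tr, tr_tr, mul_inv_rev, mul_assoc, inv_mul_cancel, mul_one]

theorem avg_mem {S : Submodule ℚ (X → ℚ)} (hS : Invariant G S) (v : X → ℚ) {w : X → ℚ}
    (hw : w ∈ S) (u : X → ℚ) : avg (G := G) v w u ∈ S := by
  rw [avg_apply]
  exact S.sum_mem fun γ _ => S.smul_mem _ (tr_mem hS _ hw)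

theorem avg_proj {S : Submodule ℚ (X → ℚ)} (hS : Invariant G S) {v : X → ℚ} (hv : v ∈ S)
    (w u : X → ℚ) : avg (G := G) v w (proj S u) = avg (G := G) v w u := by
  rw [avg_apply, avg_apply]
  refine sum_congr rfl fun γ _ => ?_
  rw [← proj_tr hS, proj_symm, proj_of_mem S hv]

/-- A nonzero equivariant map between minimal spaces preserves the killers. -/
theorem killers_eq {c : X → X} {S S' : Submodule ℚ (X → ℚ)} (hS : S ∈ MinInv G c)
    (hS' : S' ∈ MinInv G c) (L : (X → ℚ) →ₗ[ℚ] (X → ℚ))
    (hL : ∀ (γ : G) u, L (tr γ u) = tr γ (L u)) (hLS : ∀ u, L u ∈ S')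
    (hne : ∃ u ∈ S, L u ≠ 0) :
    killers G (S : Set (X → ℚ)) = killers G (S' : Set (X → ℚ)) := by
  obtain ⟨h0, hi, ho, hmin⟩ := hS
  obtain ⟨h0', hi', ho', hmin'⟩ := hS'
  obtain ⟨u₀, hu₀, hLu₀⟩ := hne
  -- injective on `S`
  have hinj : ∀ u ∈ S, L u = 0 → u = 0 := by
    rcases hmin (S ⊓ LinearMap.ker L) (fun γ s hs => ⟨hi γ s hs.1, by
      have h1 : L (tr γ s) = 0 := by
        rw [hL, LinearMap.mem_ker.1 hs.2, map_zero]
      exact h1⟩) inf_le_left with h | h
    · intro u hu hLu
      have h1 : u ∈ S ⊓ LinearMap.ker L := ⟨hu, hLu⟩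
      rw [h] at h1
      exact (Submodule.mem_bot ℚ).1 h1
    · exfalso
      have h1 : u₀ ∈ S ⊓ LinearMap.ker L := h.symm ▸ hu₀
      exact hLu₀ h1.2
  -- onto `S'`
  have hsurj : S.map L = S' := by
    rcases hmin' (S.map L) (by
      rintro γ _ ⟨s, hs, rfl⟩
      exact ⟨tr γ s, hi γ s hs, hL γ s⟩) (by
      rintro _ ⟨s, hs, rfl⟩
      exact hLS s) with h | h
    · exfalso
      have h1 : L u₀ ∈ S.map L := ⟨u₀, hu₀, rfl⟩
      rw [h] at h1
      exact hLu₀ ((Submodule.mem_bot ℚ).1 h1)
    · exact h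
  have hkey : ∀ (a : ConjClasses G → ℚ) (s : X → ℚ),
      (∑ γ : G, a (ConjClasses.mk γ) • tr γ (L s)) = L (∑ γ : G, a (ConjClasses.mk γ) • tr γ s) := by
    intro a s
    rw [map_sum]
    exact sum_congr rfl fun γ _ => by rw [map_smul, hL]
  have hmem : ∀ (T : Submodule ℚ (X → ℚ)) (a : ConjClasses G → ℚ),
      a ∈ killers G (T : Set (X → ℚ)) ↔
        ∀ s ∈ T, (∑ γ : G, a (ConjClasses.mk γ) • tr γ s) = 0 := by
    intro T a
    constructor
    · intro h s hs
      funext x
      rw [Finset.sum_apply]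
      exact h s hs x
    · intro h s hs x
      have h1 := congrFun (h s hs) x
      rw [Finset.sum_apply] at h1
      exact h1
  ext a
  rw [hmem, hmem]
  constructor
  · intro h s hs
    rw [← hsurj] at hs
    obtain ⟨u, hu, rfl⟩ := hs
    rw [hkey, h u hu, map_zero]
  · intro h s hs
    apply hinj
    · exact S.sum_mem fun γ _ => S.smul_mem _ (tr_mem hi γ hs)
    · rw [← hkey]
      exact h _ (hLS s)

/-- The characters of minimal spaces with different killers are orthogonal. -/
theorem chi_orth {c : X → X} {S S' : Submodule ℚ (X → ℚ)} (hS : S ∈ MinInv G c)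
    (hS' : S' ∈ MinInv G c)
    (hne : killers G (S : Set (X → ℚ)) ≠ killers G (S' : Set (X → ℚ))) :
    ∑ γ : G, chi S γ * chi S' γ = 0 := by
  classical
  have hL : ∀ x y u, avg (G := G) (proj S (Pi.single y 1)) (proj S' (Pi.single x 1)) u = 0 := by
    intro x y u
    by_contra hcon
    apply hne
    have hcon' : avg (G := G) (proj S (Pi.single y 1)) (proj S' (Pi.single x 1)) (proj S u) ≠ 0 := by
      rw [avg_proj hS.2.1 (proj_mem S _)]
      exact hcon
    exact killers_eq hS hS' (avg (G := G) (proj S (Pi.single y 1)) (proj S' (Pi.single x 1)))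
      (fun γ u => avg_tr _ _ u γ)
      (fun u => avg_mem hS'.2.1 _ (proj_mem S' _) u) ⟨proj S u, proj_mem S u, hcon'⟩
  have h1 : ∀ x y : X, ∑ γ : G, dot X (tr γ (Pi.single y 1)) (proj S (Pi.single y 1)) *
      dot X (tr γ (Pi.single x 1)) (proj S' (Pi.single x 1)) = 0 := by
    intro x y
    have h := congrArg (fun w => dot X w (Pi.single x 1)) (hL x y (Pi.single y 1))
    simp only [avg_apply, map_zero, LinearMap.zero_apply, map_sum, LinearMap.sum_apply, map_smul,
      LinearMap.smul_apply, smul_eq_mul] at h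
    rw [← h]
    refine sum_congr rfl fun γ _ => ?_
    rw [dot_tr γ⁻¹, inv_inv, dot_comm (proj S' (Pi.single x 1))]
  calc ∑ γ : G, chi S γ * chi S' γ
      = ∑ γ : G, ∑ y : X, ∑ x : X, dot X (tr γ (Pi.single y 1)) (proj S (Pi.single y 1)) *
          dot X (tr γ (Pi.single x 1)) (proj S' (Pi.single x 1)) := by
        refine sum_congr rfl fun γ _ => ?_
        rw [chi_eq_sum, chi_eq_sum, sum_mul_sum]
    _ = ∑ y : X, ∑ x : X, ∑ γ : G, dot X (tr γ (Pi.single y 1)) (proj S (Pi.single y 1)) *
          dot X (tr γ (Pi.single x 1)) (proj S' (Pi.single x 1)) := by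
        rw [sum_comm]
        exact sum_congr rfl fun y _ => sum_comm
    _ = 0 := sum_eq_zero fun y _ => sum_eq_zero fun x _ => h1 x y

theorem chi_sq_pos {c : X → X} {S : Submodule ℚ (X → ℚ)} (hS : S ∈ MinInv G c) :
    0 < ∑ γ : G, chi S γ * chi S γ := by
  have h1 : 0 < chi (G := G) S 1 := by
    rw [chi_one]
    have h2 : 0 < finrank ℚ S := by
      rw [Nat.pos_iff_ne_zero]
      intro h
      exact hS.1 (Submodule.finrank_eq_zero.1 h)
    exact_mod_cast h2
  refine sum_pos' (fun γ _ => mul_self_nonneg _) ⟨1, mem_univ _, mul_pos h1 h1⟩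

/-- The character of an odd space is odd. -/
theorem chi_mul_c {c : G} (hc : ∀ x, c * x = x * c) {S : Submodule ℚ (X → ℚ)}
    (hS : S ∈ MinInv G (fun x : X => c • x)) (γ : G) : chi S (γ * c) = - chi S γ := by
  have h1 : proj S ∘ₗ tr (γ * c) = - (proj S ∘ₗ tr γ) := by
    ext1 u
    ext1
    have h2 : ∀ u : X → ℚ, proj S (tr (γ * c) u) = - proj S (tr γ u) := by
      intro u
      rw [← tr_tr, proj_tr hS.2.1]
      funext x
      exact hS.2.2.1 _ (proj_mem S (tr γ u)) x
    exact congrArg (fun w : X → ℚ => w _) (h2 _)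
  rw [chi, h1, map_neg, chi]

theorem tr_pow (γ : G) (k : ℕ) : (tr γ : (X → ℚ) →ₗ[ℚ] (X → ℚ)) ^ k = tr (γ ^ k) := by
  induction k with
  | zero =>
    rw [pow_zero, pow_zero]
    refine LinearMap.ext fun u => ?_
    rw [tr_one]
    rfl
  | succ k ih =>
    rw [pow_succ, ih, pow_succ']
    refine LinearMap.ext fun u => ?_
    rw [Module.End.mul_apply, tr_tr]

/-- The character has the same value at powers that generate the same group. -/
theorem chi_pow (hR : P_ratl) {S : Submodule ℚ (X → ℚ)} (hS : Invariant G S) (γ : G) (j : ℕ)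
    (hj : j.Coprime (orderOf γ)) : chi S (γ ^ j) = chi S γ := by
  have hm : ∀ δ : G, ∀ k ∈ S, (tr δ : (X → ℚ) →ₗ[ℚ] (X → ℚ)) k ∈ S :=
    fun δ k hk => tr_mem hS δ hk
  have h1 : ∀ k : ℕ, ((tr γ : (X → ℚ) →ₗ[ℚ] (X → ℚ)).restrict (hm γ)) ^ k =
      (tr (γ ^ k) : (X → ℚ) →ₗ[ℚ] (X → ℚ)).restrict (hm (γ ^ k)) := by
    intro k
    refine LinearMap.ext fun s => Subtype.ext ?_
    rw [LinearMap.coe_restrict_apply, ← tr_pow]
    induction k generalizing s with
    | zero => rfl
    | succ k ih =>
      rw [pow_succ, pow_succ, Module.End.mul_apply, Module.End.mul_apply, ih,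
        LinearMap.coe_restrict_apply]
  rw [chi, chi, trace_proj_comp S _ (hm (γ ^ j)), trace_proj_comp S _ (hm γ), ← h1]
  refine hR S _ (orderOf γ) j (orderOf_pos γ) ?_ hj
  rw [h1]
  refine LinearMap.ext fun s => Subtype.ext ?_
  rw [LinearMap.coe_restrict_apply, pow_orderOf_eq_one, tr_one]
  rfl

end char

section group

variable {G : Type} [Group G] [Fintype G]

/-- An odd function that is constant on the generators of cyclic groups is determined by the
values at the elements that do not generate `c`. -/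
theorem eq_zero_of_odd {c : G} (hcc : c * c = 1) (hc : ∀ x, c * x = x * c) {f : G → ℚ}
    (h1 : ∀ x, f (x * c) = - f x) (h2 : ∀ x (j : ℕ), j.Coprime (orderOf x) → f (x ^ j) = f x)
    (h3 : ∀ x, c ∉ Subgroup.zpowers x → f x = 0) (x : G) : f x = 0 := by
  classical
  by_cases hx : c ∈ Subgroup.zpowers x
  swap
  · exact h3 x hx
  by_cases hc1 : c = 1
  · have h := h1 x
    rw [hc1, mul_one] at h
    linarith
  obtain ⟨k, hk, hkc⟩ := (isOfFinOrder_of_finite x).mem_zpowers_iff_mem_range_orderOf.1 hx |>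
    Finset.mem_image.1
  rw [Finset.mem_range] at hk
  change x ^ k = c at hkc
  have hn : orderOf x = 2 * k := by
    have hdvd : orderOf x ∣ 2 * k := by
      rw [orderOf_dvd_iff_pow_eq_one, two_mul, pow_add, hkc, hcc]
    have hk0 : 0 < k := by
      rw [Nat.pos_iff_ne_zero]
      rintro rfl
      exact hc1 (by rw [← hkc, pow_zero])
    obtain ⟨m, hm⟩ := hdvd
    have hm1 : m = 1 := by
      have : m < 2 := by
        by_contra hcon
        push Not at hcon
        nlinarith
      have : 0 < m := by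
        rw [Nat.pos_iff_ne_zero]
        rintro rfl
        omega
      omega
    rw [hm, hm1, mul_one]
  have hxc : x * c = x ^ (1 + k) := by rw [pow_add, pow_one, hkc]
  rcases Nat.even_or_odd k with hek | hok
  · have hcop : (1 + k).Coprime (orderOf x) := by
      rw [hn]
      apply Nat.Coprime.mul_right
      · exact Nat.coprime_two_right.2 (by
          obtain ⟨r, hr⟩ := hek
          exact ⟨r, by omega⟩)
      · rw [Nat.coprime_add_self_left]
        exact Nat.coprime_one_left k
    have h := h2 x _ hcop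
    rw [← hxc, h1] at h
    linarith
  · have hnot : c ∉ Subgroup.zpowers (x * c) := by
      intro hmem
      have h4 : (x * c) ^ k = 1 := by
        have hcomm : Commute x c := (hc x).symm
        rw [hcomm.mul_pow, hkc]
        obtain ⟨r, hr⟩ := hok
        rw [hr, pow_succ, pow_mul, pow_two, hcc, one_pow, one_mul, hcc]
      obtain ⟨m, hm⟩ := hmem
      change (x * c) ^ m = c at hm
      have h5 : c ^ k = 1 := by
        rw [← hm, ← zpow_natCast, ← zpow_mul, mul_comm, zpow_mul, zpow_natCast, h4, one_zpow]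
      obtain ⟨r, hr⟩ := hok
      rw [hr, pow_succ, pow_mul, pow_two, hcc, one_pow, one_mul] at h5
      exact hc1 h5
    have h := h3 _ hnot
    rw [h1] at h
    linarith

end group

/-- The number of the classes of odd minimal spaces. -/
theorem q1 (hR : P_ratl) : P_q1 := by
  classical
  intro G X _ _ _ _ c ι _ S hcc hc hS hK
  have hgen : ∀ A : Subgroup G, ∃ g : G, ∀ x : G, Subgroup.zpowers x = A →
      Subgroup.zpowers g = A := by
    intro A
    by_cases h : ∃ g : G, Subgroup.zpowers g = A
    · obtain ⟨g, hg⟩ := h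
      exact ⟨g, fun _ _ => hg⟩
    · exact ⟨1, fun x hx => absurd ⟨x, hx⟩ h⟩
  choose gen hgen using hgen
  have hlin : LinearIndependent ℚ
      (fun (i : ι) (A : {A : Subgroup G | c ∉ A}) => chi (S i) (gen A)) := by
    rw [Fintype.linearIndependent_iff]
    intro l hl i
    let f : G → ℚ := fun γ => ∑ j, l j * chi (S j) γ
    have hf1 : ∀ x, f (x * c) = - f x := by
      intro x
      simp only [f]
      rw [← sum_neg_distrib]
      exact sum_congr rfl fun j _ => by rw [chi_mul_c hc (hS j)]; ring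
    have hf2 : ∀ x (k : ℕ), k.Coprime (orderOf x) → f (x ^ k) = f x := by
      intro x k hk
      exact sum_congr rfl fun j _ => by rw [chi_pow hR (hS j).2.1 x k hk]
    have hf3 : ∀ x, c ∉ Subgroup.zpowers x → f x = 0 := by
      intro x hx
      have hg := hgen (Subgroup.zpowers x) x rfl
      set g := gen (Subgroup.zpowers x) with hgdef
      have h4 : f g = 0 := by
        have h5 := congrFun hl ⟨Subgroup.zpowers x, hx⟩
        rw [Finset.sum_apply] at h5
        simpa [f] using h5
      have hxg : x ∈ Subgroup.zpowers g := by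
        rw [hg]
        exact Subgroup.mem_zpowers x
      obtain ⟨k, hk, hkx⟩ := (isOfFinOrder_of_finite g).mem_zpowers_iff_mem_range_orderOf.1 hxg |>
        Finset.mem_image.1
      change g ^ k = x at hkx
      have hord : orderOf x = orderOf g := by
        rw [← Nat.card_zpowers, ← Nat.card_zpowers, hg]
      have hcop : k.Coprime (orderOf g) := by
        have h6 := orderOf_pow (x := g) (n := k)
        rw [hkx, hord] at h6
        have hpos := orderOf_pos g
        have h7 : orderOf g / Nat.gcd (orderOf g) k = orderOf g := h6.symm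
        have h8 := Nat.div_eq_self.1 h7
        rcases h8 with h8 | h8
        · omega
        · rw [Nat.coprime_comm]
          exact h8
      rw [← hkx, hf2 g k hcop, h4]
    have hf0 : ∀ x, f x = 0 := eq_zero_of_odd hcc hc hf1 hf2 hf3
    have h6 : ∑ γ : G, f γ * chi (S i) γ = l i * ∑ γ : G, chi (S i) γ * chi (S i) γ := by
      calc ∑ γ : G, f γ * chi (S i) γ
          = ∑ γ : G, ∑ j, l j * (chi (S j) γ * chi (S i) γ) := by
            refine sum_congr rfl fun γ _ => ?_
            rw [sum_mul]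
            exact sum_congr rfl fun j _ => by ring
        _ = ∑ j, l j * ∑ γ : G, chi (S j) γ * chi (S i) γ := by
            rw [sum_comm]
            exact sum_congr rfl fun j _ => (mul_sum _ _ _).symm
        _ = l i * ∑ γ : G, chi (S i) γ * chi (S i) γ := by
            rw [Finset.sum_eq_single i]
            · intro j _ hj
              rw [chi_orth (hS j) (hS i) (hK j i hj), mul_zero]
            · intro h
              exact absurd (mem_univ _) h
    rw [sum_eq_zero fun γ _ => by rw [hf0 γ, zero_mul]] at h6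
    exact (mul_eq_zero.1 h6.symm).resolve_right (chi_sq_pos (hS i)).ne'
  have h := hlin.fintype_card_le_finrank
  rw [Module.finrank_fintype_fun_eq_card] at h
  rw [← Nat.card_coe_set_eq, Nat.card_eq_fintype_card]
  exact h

end Pool.Agent.Y327.KN
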